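import Pool.Agent.H30.SorA

set_option autoImplicit false

namespace Pool.Agent.Results.MP_d23b2b_gt.CH

open Pool.Agent.H30.Sor

/-- Under CH the statement of the problem fails. -/
theorem result (h : (Cardinal.continuum : Cardinal.{0}) = Cardinal.aleph 1) :
    ¬ ∀ (X : Type) [TopologicalSpace X] [T35Space X],
      (∀ A : Set (X → ℝ), A ⊆ {f : X → ℝ | Continuous f} →
        ∃ D : Set (X → ℝ), D ⊆ A ∧ D.Countable ∧
          ∀ f ∈ A, ∃ u : ℕ → X → ℝ, (∀ k, u k ∈ D) ∧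
            Filter.Tendsto u Filter.atTop (nhds f)) →
      ∃ N : Set (Set (X → ℝ)), N.Countable ∧
        (∀ n ∈ N, n ⊆ {f : X → ℝ | Continuous f}) ∧
        ∀ f : X → ℝ, Continuous f → ∀ U : Set (X → ℝ), IsOpen U → f ∈ U →
          ∃ n ∈ N, f ∈ n ∧ n ⊆ U := by
  intro H
  obtain ⟨y, hy⟩ := exists_lus h
  obtain ⟨N, h1, -, h2⟩ := H (So y) (fun A hA => by
    obtain ⟨D, h1, h2, h3⟩ := hy.hss (Subtype.val ⁻¹' A)
    refine ⟨Subtype.val '' D, Set.image_subset_iff.2 h1, h2.image _, fun f hf => ?_⟩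
    obtain ⟨u, h4, h5⟩ := h3 ⟨f, hA hf⟩ hf
    exact ⟨fun k => (u k).1, fun k => ⟨_, h4 k, rfl⟩, tendsto_subtype_rng.1 h5⟩)
  exact hy.no_net h1 h2

end Pool.Agent.Results.MP_d23b2b_gt.CH
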